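import Mathlib

set_option autoImplicit false

open Filter Topology

namespace Pool.Agent.Q217.DR

/-- one step of the recursion for `m = 2` (in the exact form of the frozen statement) -/
noncomputable def step (q : ℕ → ℝ) (k : ℕ) : ℝ :=
  (∑ x : Fin 2 → Fin (k + 2),
      if (∑ i, (x i : ℕ)) = k + 1 then ∏ i, q (x i) else 0)
    + (if k = 0 then q 0 ^ 2 else 0)

theorem step_eq (q : ℕ → ℝ) (k : ℕ) :
    step q k = (∑ ij ∈ Finset.HasAntidiagonal.antidiagonal (k + 1), q ij.1 * q ij.2)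
      + (if k = 0 then q 0 ^ 2 else 0) := by
  unfold step
  congr 1
  rw [← (finTwoArrowEquiv (Fin (k + 2))).symm.sum_comp]
  simp only [Fin.sum_univ_two, Fin.prod_univ_two, finTwoArrowEquiv_symm_apply, Matrix.cons_val_zero,
    Matrix.cons_val_one]
  rw [← Finset.sum_filter]
  refine Finset.sum_bij (fun (a : Fin (k+2) × Fin (k+2)) _ => ((a.1 : ℕ), (a.2 : ℕ))) ?_ ?_ ?_ ?_
  · intro a ha
    simp only [Finset.mem_filter, Finset.mem_univ, true_and] at ha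
    simpa using ha
  · intro a _ b _ h
    have h' := Prod.mk.inj h
    exact Prod.ext (Fin.ext h'.1) (Fin.ext h'.2)
  · rintro ⟨i, j⟩ h
    rw [Finset.HasAntidiagonal.mem_antidiagonal] at h
    simp only at h
    refine ⟨(⟨i, by omega⟩, ⟨j, by omega⟩), ?_, rfl⟩
    simpa using h
  · intro a _
    rfl

theorem hasSum_congr' {β : Type*} {f g : β → ℝ} (h : ∀ b, f b = g b) {a : ℝ} :
    HasSum f a ↔ HasSum g a := by
  rw [show f = g from funext h]

/-- expectation of a function of `(S - 1)^+` -/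
theorem hasSum_step (q φ : ℕ → ℝ)
    (hs : Summable (fun ij : ℕ × ℕ => q ij.1 * q ij.2 * φ (ij.1 + ij.2 - 1))) :
    HasSum (fun k => step q k * φ k) (∑' ij : ℕ × ℕ, q ij.1 * q ij.2 * φ (ij.1 + ij.2 - 1)) := by
  set F : ℕ × ℕ → ℝ := fun ij => q ij.1 * q ij.2 * φ (ij.1 + ij.2 - 1) with hF
  have h1 : HasSum F (∑' ij, F ij) := hs.hasSum
  have h2 : HasSum (fun x : (Σ n : ℕ, Finset.HasAntidiagonal.antidiagonal n) => F (x.2 : ℕ × ℕ)) (∑' ij, F ij) :=
    (Equiv.hasSum_iff Finset.HasAntidiagonal.sigmaAntidiagonalEquivProd).mpr h1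
  have h3 : HasSum (fun n : ℕ => ∑ x : Finset.HasAntidiagonal.antidiagonal n, F (x : ℕ × ℕ)) (∑' ij, F ij) :=
    h2.sigma (fun n => hasSum_fintype _)
  have h4 : (fun n : ℕ => ∑ x : Finset.HasAntidiagonal.antidiagonal n, F (x : ℕ × ℕ))
      = fun n => ∑ ij ∈ Finset.HasAntidiagonal.antidiagonal n, F ij := by
    funext n
    exact Finset.sum_coe_sort (Finset.HasAntidiagonal.antidiagonal n) F
  rw [h4] at h3
  have h5 := (hasSum_nat_add_iff' 1).mpr h3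
  simp only [Finset.range_one, Finset.sum_singleton, Finset.Nat.antidiagonal_zero] at h5
  have h6 : HasSum (fun k : ℕ => if k = 0 then q 0 ^ 2 * φ 0 else 0) (q 0 ^ 2 * φ 0) := by
    have := hasSum_ite_eq (0 : ℕ) (q 0 ^ 2 * φ 0)
    simpa using this
  have h7 := h5.add h6
  have e1 : (∑' ij, F ij) - F (0, 0) + q 0 ^ 2 * φ 0 = ∑' ij, F ij := by
    simp only [hF]
    ring
  rw [e1] at h7
  refine (hasSum_congr' fun k => ?_).mpr h7
  rw [step_eq]
  rcases Nat.eq_zero_or_pos k with rfl | hk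
  · simp [hF, add_mul, Finset.sum_mul, Finset.Nat.antidiagonal_succ]
  · have hk0 : k ≠ 0 := hk.ne'
    simp only [hk0, if_false, add_zero, hF, Finset.sum_mul]
    refine Finset.sum_congr rfl fun ij hij => ?_
    rw [Finset.HasAntidiagonal.mem_antidiagonal] at hij
    rw [hij]
    simp

/-- critical laws for `m = 2` -/
structure Crit (q : ℕ → ℝ) : Prop where
  nonneg : ∀ k, 0 ≤ q k
  sum1 : HasSum q 1
  summ : Summable (fun k : ℕ => q k * 2 ^ k)
  summk : Summable (fun k : ℕ => (k : ℝ) * (q k * 2 ^ k))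
  crit : ∑' k : ℕ, (k : ℝ) * (q k * 2 ^ k) = ∑' k : ℕ, q k * 2 ^ k

/-- `E 2^X` -/
noncomputable def G (q : ℕ → ℝ) : ℝ := ∑' k : ℕ, q k * 2 ^ k

theorem Crit.step_nonneg {q : ℕ → ℝ} (h : Crit q) (k : ℕ) : 0 ≤ step q k := by
  rw [step_eq]
  have h1 : 0 ≤ ∑ ij ∈ Finset.HasAntidiagonal.antidiagonal (k + 1), q ij.1 * q ij.2 :=
    Finset.sum_nonneg fun ij _ => mul_nonneg (h.nonneg _) (h.nonneg _)
  have h2 : 0 ≤ (if k = 0 then q 0 ^ 2 else 0) := by
    split_ifs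
    · positivity
    · exact le_refl 0
  linarith

theorem Crit.step_sum1 {q : ℕ → ℝ} (h : Crit q) : HasSum (step q) 1 := by
  have hs : Summable (fun ij : ℕ × ℕ => q ij.1 * q ij.2) :=
    h.sum1.summable.mul_of_nonneg h.sum1.summable h.nonneg h.nonneg
  have h1 : HasSum (fun ij : ℕ × ℕ => q ij.1 * q ij.2) (1 * 1) := h.sum1.mul h.sum1 hs
  have h2 := hasSum_step q (fun _ => 1) (by simpa using hs)
  simp only [mul_one] at h2
  rw [h1.tsum_eq] at h2
  simpa using h2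

theorem aux_pow (q : ℕ → ℝ) (i j : ℕ) :
    q i * q j * 2 ^ (i + j - 1) = (1 / 2) * ((q i * 2 ^ i) * (q j * 2 ^ j))
      + (if (i, j) = ((0, 0) : ℕ × ℕ) then (1 / 2) * q 0 ^ 2 else 0) := by
  by_cases hij : (i, j) = ((0, 0) : ℕ × ℕ)
  · rw [if_pos hij]
    obtain ⟨rfl, rfl⟩ := Prod.mk.inj hij
    norm_num
    ring
  · rw [if_neg hij]
    have hpos : 1 ≤ i + j := by
      by_contra hlt
      apply hij
      have h1 : i = 0 := by omega
      have h2 : j = 0 := by omega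
      rw [h1, h2]
    obtain ⟨t, ht⟩ := Nat.exists_eq_add_of_le hpos
    have e1 : i + j - 1 = t := by omega
    have e2 : (2 : ℝ) ^ i * 2 ^ j = 2 * 2 ^ t := by
      rw [← pow_add, ht, pow_add, pow_one]
    rw [e1]
    calc q i * q j * 2 ^ t = (1/2) * (q i * q j) * (2 * 2 ^ t) := by ring
      _ = (1/2) * (q i * q j) * (2 ^ i * 2 ^ j) := by rw [e2]
      _ = _ := by ring

theorem aux_pow' (q : ℕ → ℝ) (i j : ℕ) :
    q i * q j * (((i + j - 1 : ℕ) : ℝ) * 2 ^ (i + j - 1)) =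
      (1 / 2) * (((i : ℝ) * (q i * 2 ^ i)) * (q j * 2 ^ j) + (q i * 2 ^ i) * ((j : ℝ) * (q j * 2 ^ j))
        - (q i * 2 ^ i) * (q j * 2 ^ j))
      + (if (i, j) = ((0, 0) : ℕ × ℕ) then (1 / 2) * q 0 ^ 2 else 0) := by
  by_cases hij : (i, j) = ((0, 0) : ℕ × ℕ)
  · rw [if_pos hij]
    obtain ⟨rfl, rfl⟩ := Prod.mk.inj hij
    norm_num
    ring
  · rw [if_neg hij]
    have hpos : 1 ≤ i + j := by
      by_contra hlt
      apply hij
      have h1 : i = 0 := by omega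
      have h2 : j = 0 := by omega
      rw [h1, h2]
    obtain ⟨t, ht⟩ := Nat.exists_eq_add_of_le hpos
    have e1 : i + j - 1 = t := by omega
    have e2 : (2 : ℝ) ^ i * 2 ^ j = 2 * 2 ^ t := by
      rw [← pow_add, ht, pow_add, pow_one]
    have e3 : (t : ℝ) = i + j - 1 := by
      have : ((i + j : ℕ) : ℝ) = 1 + t := by rw [ht]; push_cast; ring
      push_cast at this
      linarith
    rw [e1]
    calc q i * q j * (t * 2 ^ t) = (1/2) * (q i * q j) * t * (2 * 2 ^ t) := by ring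
      _ = (1/2) * (q i * q j) * (i + j - 1) * (2 ^ i * 2 ^ j) := by rw [e2, e3]
      _ = _ := by ring

theorem Crit.step_summ {q : ℕ → ℝ} (h : Crit q) :
    HasSum (fun k : ℕ => step q k * 2 ^ k) ((1 / 2) * (G q ^ 2 + q 0 ^ 2)) := by
  have hh : ∀ k, 0 ≤ q k * 2 ^ k := fun k => mul_nonneg (h.nonneg k) (by positivity)
  have hs : Summable (fun ij : ℕ × ℕ => (q ij.1 * 2 ^ ij.1) * (q ij.2 * 2 ^ ij.2)) :=
    h.summ.mul_of_nonneg h.summ hh hh
  have h1 : HasSum (fun ij : ℕ × ℕ => (q ij.1 * 2 ^ ij.1) * (q ij.2 * 2 ^ ij.2)) (G q * G q) :=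
    h.summ.hasSum.mul h.summ.hasSum hs
  have h2 : HasSum (fun ij : ℕ × ℕ => if ij = ((0, 0) : ℕ × ℕ) then (1 / 2) * q 0 ^ 2 else 0)
      ((1 / 2) * q 0 ^ 2) := hasSum_ite_eq _ _
  have h3 := (h1.mul_left (1 / 2)).add h2
  have h4 : HasSum (fun ij : ℕ × ℕ => q ij.1 * q ij.2 * 2 ^ (ij.1 + ij.2 - 1))
      (1 / 2 * (G q * G q) + 1 / 2 * q 0 ^ 2) := by
    refine (hasSum_congr' fun ij => ?_).mpr h3
    exact aux_pow q ij.1 ij.2
  have h5 := hasSum_step q (fun k => 2 ^ k) h4.summable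
  rw [h4.tsum_eq] at h5
  convert h5 using 1
  ring

theorem Crit.step_summk {q : ℕ → ℝ} (h : Crit q) :
    HasSum (fun k : ℕ => (k : ℝ) * (step q k * 2 ^ k)) ((1 / 2) * (G q ^ 2 + q 0 ^ 2)) := by
  have hh : ∀ k, 0 ≤ q k * 2 ^ k := fun k => mul_nonneg (h.nonneg k) (by positivity)
  have hk : ∀ k : ℕ, 0 ≤ (k : ℝ) * (q k * 2 ^ k) := fun k => mul_nonneg (Nat.cast_nonneg k) (hh k)
  have hs : Summable (fun ij : ℕ × ℕ => (q ij.1 * 2 ^ ij.1) * (q ij.2 * 2 ^ ij.2)) :=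
    h.summ.mul_of_nonneg h.summ hh hh
  have h1 : HasSum (fun ij : ℕ × ℕ => (q ij.1 * 2 ^ ij.1) * (q ij.2 * 2 ^ ij.2)) (G q * G q) :=
    h.summ.hasSum.mul h.summ.hasSum hs
  have hkG : HasSum (fun k : ℕ => (k : ℝ) * (q k * 2 ^ k)) (G q) := by
    have := h.summk.hasSum
    rw [h.crit] at this
    exact this
  have h1a : HasSum (fun ij : ℕ × ℕ => ((ij.1 : ℝ) * (q ij.1 * 2 ^ ij.1)) * (q ij.2 * 2 ^ ij.2))
      (G q * G q) :=
    hkG.mul h.summ.hasSum (h.summk.mul_of_nonneg h.summ hk hh)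
  have h1b : HasSum (fun ij : ℕ × ℕ => (q ij.1 * 2 ^ ij.1) * ((ij.2 : ℝ) * (q ij.2 * 2 ^ ij.2)))
      (G q * G q) :=
    h.summ.hasSum.mul hkG (h.summ.mul_of_nonneg h.summk hh hk)
  have h2 : HasSum (fun ij : ℕ × ℕ => if ij = ((0, 0) : ℕ × ℕ) then (1 / 2) * q 0 ^ 2 else 0)
      ((1 / 2) * q 0 ^ 2) := hasSum_ite_eq _ _
  have h3 := (((h1a.add h1b).sub h1).mul_left (1 / 2)).add h2
  have h4 : HasSum (fun ij : ℕ × ℕ => q ij.1 * q ij.2 *
      (((ij.1 + ij.2 - 1 : ℕ) : ℝ) * 2 ^ (ij.1 + ij.2 - 1)))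
      (1 / 2 * (G q * G q + G q * G q - G q * G q) + 1 / 2 * q 0 ^ 2) := by
    refine (hasSum_congr' fun ij => ?_).mpr h3
    exact aux_pow' q ij.1 ij.2
  have h5 := hasSum_step q (fun k => (k : ℝ) * 2 ^ k) h4.summable
  rw [h4.tsum_eq] at h5
  have h6 : HasSum (fun k : ℕ => (k : ℝ) * (step q k * 2 ^ k))
      (1 / 2 * (G q * G q + G q * G q - G q * G q) + 1 / 2 * q 0 ^ 2) := by
    refine (hasSum_congr' fun k => ?_).mpr h5
    ring
  convert h6 using 1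
  ring

theorem Crit.step {q : ℕ → ℝ} (h : Crit q) : Crit (step q) where
  nonneg := h.step_nonneg
  sum1 := h.step_sum1
  summ := h.step_summ.summable
  summk := h.step_summk.summable
  crit := by rw [h.step_summ.tsum_eq, h.step_summk.tsum_eq]

theorem Crit.G_step {q : ℕ → ℝ} (h : Crit q) : G (DR.step q) = (1 / 2) * (G q ^ 2 + q 0 ^ 2) :=
  h.step_summ.tsum_eq

end Pool.Agent.Q217.DR
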