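import Pool.Agent.Q217.DR1

set_option autoImplicit false

open Filter Topology

namespace Pool.Agent.Q217.DR

theorem Crit.hh {q : ℕ → ℝ} (h : Crit q) (k : ℕ) : 0 ≤ q k * 2 ^ k :=
  mul_nonneg (h.nonneg k) (by positivity)

theorem Crit.one_le_G {q : ℕ → ℝ} (h : Crit q) : 1 ≤ G q := by
  refine hasSum_le (fun k => ?_) h.sum1 h.summ.hasSum
  have h1 : (1 : ℝ) ≤ 2 ^ k := one_le_pow₀ (by norm_num)
  nlinarith [h.nonneg k]

theorem Crit.sumG {q : ℕ → ℝ} (h : Crit q) : HasSum (fun k : ℕ => q k * 2 ^ k) (G q) :=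
  h.summ.hasSum

theorem Crit.sumkG {q : ℕ → ℝ} (h : Crit q) :
    HasSum (fun k : ℕ => (k : ℝ) * (q k * 2 ^ k)) (G q) := by
  have := h.summk.hasSum
  rw [h.crit] at this
  exact this

theorem Crit.zero_le_one {q : ℕ → ℝ} (h : Crit q) : q 0 ≤ 1 :=
  le_hasSum h.sum1 0 (fun k _ => h.nonneg k)

theorem Crit.tail {q : ℕ → ℝ} (h : Crit q) (s : Finset ℕ) (K : ℕ) (hK : 1 ≤ K)
    (hs : ∀ k ∈ s, K ≤ k) : ((K : ℝ) - 1) * ∑ k ∈ s, q k * 2 ^ k ≤ 1 := by
  have h1 : HasSum (fun k : ℕ => ((k : ℝ) - 1) * (q k * 2 ^ k)) 0 := by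
    have := h.sumkG.sub h.sumG
    rw [sub_self] at this
    refine (hasSum_congr' fun k => ?_).mpr this
    ring
  have h0 : (0 : ℕ) ∉ s := fun h0 => by
    have := hs 0 h0
    omega
  have h2 := sum_le_hasSum (insert 0 s) (fun k hk => ?_) h1
  · rw [Finset.sum_insert h0] at h2
    have h3 : ((K : ℝ) - 1) * ∑ k ∈ s, q k * 2 ^ k ≤ ∑ k ∈ s, ((k : ℝ) - 1) * (q k * 2 ^ k) := by
      rw [Finset.mul_sum]
      refine Finset.sum_le_sum fun k hk => ?_
      have : (K : ℝ) ≤ k := by exact_mod_cast hs k hk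
      exact mul_le_mul_of_nonneg_right (by linarith) (h.hh k)
    have h4 := h.zero_le_one
    norm_num at h2
    linarith
  · rw [Finset.mem_insert, not_or] at hk
    have hk1 : 1 ≤ k := Nat.one_le_iff_ne_zero.mpr hk.1
    have hk2 : (1 : ℝ) ≤ k := by exact_mod_cast hk1
    exact mul_nonneg (by linarith) (h.hh k)

theorem Crit.step_lower {q : ℕ → ℝ} (h : Crit q) (k : ℕ) (hk : 1 ≤ k) :
    ∑ j ∈ (Finset.range (k + 2)).filter (fun j => 2 * j < k + 1),
      (q j * 2 ^ j) * (q (k + 1 - j) * 2 ^ (k + 1 - j)) ≤ DR.step q k * 2 ^ k := by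
  have e1 : DR.step q k * 2 ^ k = (1 / 2) * ∑ j ∈ Finset.range (k + 2),
      (q j * 2 ^ j) * (q (k + 1 - j) * 2 ^ (k + 1 - j)) := by
    rw [step_eq, if_neg (by omega), add_zero, Finset.sum_mul,
      Finset.Nat.sum_antidiagonal_eq_sum_range_succ_mk, Finset.mul_sum]
    refine Finset.sum_congr rfl fun j hj => ?_
    rw [Finset.mem_range] at hj
    have e2 : (2 : ℝ) ^ j * 2 ^ (k + 1 - j) = 2 * 2 ^ k := by
      rw [← pow_add, ← pow_succ']
      congr 1
      omega
    simp only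
    calc q j * q (k + 1 - j) * 2 ^ k = (1/2) * (q j * q (k + 1 - j)) * (2 * 2 ^ k) := by ring
      _ = (1/2) * (q j * q (k + 1 - j)) * (2 ^ j * 2 ^ (k + 1 - j)) := by rw [e2]
      _ = _ := by ring
  set f : ℕ → ℝ := fun j => (q j * 2 ^ j) * (q (k + 1 - j) * 2 ^ (k + 1 - j)) with hf
  have hf0 : ∀ j, 0 ≤ f j := fun j => mul_nonneg (h.hh _) (h.hh _)
  have e3 : ∑ j ∈ (Finset.range (k + 2)).filter (fun j => k + 1 < 2 * j), f j =
      ∑ j ∈ (Finset.range (k + 2)).filter (fun j => 2 * j < k + 1), f j := by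
    refine Finset.sum_nbij' (fun j => k + 1 - j) (fun j => k + 1 - j) ?_ ?_ ?_ ?_ ?_
    · intro j hj
      simp only [Finset.mem_filter, Finset.mem_range] at hj ⊢
      omega
    · intro j hj
      simp only [Finset.mem_filter, Finset.mem_range] at hj ⊢
      omega
    · intro j hj
      simp only [Finset.mem_filter, Finset.mem_range] at hj
      omega
    · intro j hj
      simp only [Finset.mem_filter, Finset.mem_range] at hj
      omega
    · intro j hj
      simp only [Finset.mem_filter, Finset.mem_range] at hj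
      have e4 : k + 1 - (k + 1 - j) = j := by omega
      simp only [hf, e4]
      ring
  have e5 : ∑ j ∈ (Finset.range (k + 2)).filter (fun j => k + 1 < 2 * j), f j +
      ∑ j ∈ (Finset.range (k + 2)).filter (fun j => 2 * j < k + 1), f j
      ≤ ∑ j ∈ Finset.range (k + 2), f j := by
    rw [← Finset.sum_union]
    · refine Finset.sum_le_sum_of_subset_of_nonneg ?_ (fun j _ _ => hf0 j)
      intro j hj
      simp only [Finset.mem_union, Finset.mem_filter] at hj
      rcases hj with hj | hj <;> exact hj.1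
    · rw [Finset.disjoint_left]
      intro j hj1 hj2
      simp only [Finset.mem_filter, Finset.mem_range] at hj1 hj2
      omega
  rw [e1]
  linarith

theorem Crit.lower {q : ℕ → ℝ} (h : Crit q) (c : ℝ) (hc : 0 ≤ c) (n : ℕ)
    (H : ∀ k : ℕ, 1 ≤ k → c / ((k : ℝ) + n) ^ 3 * (1 - 4 * n / k) ≤ q k * 2 ^ k) :
    ∀ k : ℕ, 1 ≤ k →
      c * G q / ((k : ℝ) + (n + 1 : ℕ)) ^ 3 * (1 - 4 * (n + 1 : ℕ) / k) ≤ DR.step q k * 2 ^ k := by
  intro k hk
  have hk0 : (0 : ℝ) < k := by exact_mod_cast hk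
  have hn0 : (0 : ℝ) ≤ n := Nat.cast_nonneg n
  have hG : 1 ≤ G q := h.one_le_G
  push_cast
  by_cases hkn : k ≤ 4 * (n + 1)
  · have h1 : (k : ℝ) ≤ 4 * (n + 1) := by exact_mod_cast hkn
    have h2 : 1 - 4 * ((n : ℝ) + 1) / k ≤ 0 := by
      rw [sub_nonpos, le_div_iff₀ hk0]
      linarith
    have h3 : 0 ≤ c * G q / ((k : ℝ) + (n + 1)) ^ 3 := by positivity
    have h4 : 0 ≤ DR.step q k * 2 ^ k := mul_nonneg (h.step_nonneg k) (by positivity)
    nlinarith [mul_nonneg h3 (neg_nonneg.mpr h2)]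
  · push Not at hkn
    have h1 : 4 * ((n : ℝ) + 1) < k := by exact_mod_cast hkn
    set A := (Finset.range (k + 2)).filter (fun j => 2 * j < k + 1) with hA
    set c' := c / ((k : ℝ) + (n + 1)) ^ 3 with hc'
    have hc'0 : 0 ≤ c' := by positivity
    have hkp : (0 : ℝ) < k + 1 := by linarith
    -- pointwise
    have h2 : ∀ j ∈ A, c' * ((q j * 2 ^ j) * (1 - 4 * n / (k + 1) - 2 * j / (k + 1))) ≤
        (q j * 2 ^ j) * (q (k + 1 - j) * 2 ^ (k + 1 - j)) := by
      intro j hj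
      simp only [hA, Finset.mem_filter, Finset.mem_range] at hj
      obtain ⟨l, hl⟩ : ∃ l, k + 1 = j + l := ⟨k + 1 - j, by omega⟩
      have el : k + 1 - j = l := by omega
      rw [el]
      have hl1 : 1 ≤ l := by omega
      have hlr : (k : ℝ) + 1 = j + l := by exact_mod_cast hl
      have hj2 : 2 * (j : ℝ) < k + 1 := by exact_mod_cast hj.2
      have hj0 : (0 : ℝ) ≤ j := Nat.cast_nonneg j
      have hl0 : (0 : ℝ) < l := by exact_mod_cast hl1
      have h3 : 1 - 4 * (n : ℝ) / (k + 1) - 2 * j / (k + 1) ≤ 1 - 4 * n / l := by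
        have : 4 * (n : ℝ) / l ≤ 4 * n / (k + 1) + 2 * j / (k + 1) := by
          rw [← add_div, div_le_div_iff₀ hl0 hkp]
          have e : (l : ℝ) = k + 1 - j := by linarith
          rw [e]
          nlinarith [mul_nonneg hn0 hj0]
        linarith
      have h4 : c' * (1 - 4 * n / l) ≤ q l * 2 ^ l := by
        by_cases hneg : 1 - 4 * (n : ℝ) / l ≤ 0
        · have := h.hh l
          nlinarith [mul_nonneg hc'0 (neg_nonneg.mpr hneg)]
        · push Not at hneg
          refine le_trans ?_ (H l hl1)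
          refine mul_le_mul_of_nonneg_right ?_ hneg.le
          rw [hc']
          refine div_le_div_of_nonneg_left hc (by positivity) ?_
          refine pow_le_pow_left₀ (by positivity) ?_ 3
          linarith
      calc c' * ((q j * 2 ^ j) * (1 - 4 * n / (k + 1) - 2 * j / (k + 1)))
          = (q j * 2 ^ j) * (c' * (1 - 4 * n / (k + 1) - 2 * j / (k + 1))) := by ring
        _ ≤ (q j * 2 ^ j) * (c' * (1 - 4 * n / l)) :=
            mul_le_mul_of_nonneg_left (mul_le_mul_of_nonneg_left h3 hc'0) (h.hh j)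
        _ ≤ _ := mul_le_mul_of_nonneg_left h4 (h.hh j)
    have h5 : HasSum (fun j : ℕ => (q j * 2 ^ j) * (1 - 4 * n / (k + 1) - 2 * j / (k + 1)))
        (G q * (1 - (4 * n + 2) / (k + 1))) := by
      have := (h.sumG.mul_right (1 - 4 * (n : ℝ) / (k + 1))).sub (h.sumkG.mul_right (2 / ((k : ℝ) + 1)))
      have e : G q * (1 - (4 * (n : ℝ) + 2) / (k + 1)) =
          G q * (1 - 4 * (n : ℝ) / (k + 1)) - G q * (2 / ((k : ℝ) + 1)) := by ring
      rw [e]
      refine (hasSum_congr' fun j => ?_).mpr this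
      ring
    have h6 : G q * (1 - (4 * n + 2) / (k + 1)) ≤
        ∑ j ∈ A, (q j * 2 ^ j) * (1 - 4 * n / (k + 1) - 2 * j / (k + 1)) := by
      have h7 := sum_le_hasSum A (fun j hj => ?_) h5.neg
      · rw [Finset.sum_neg_distrib] at h7
        linarith
      · have hj2 : (k : ℝ) + 1 ≤ 2 * j := by
          by_contra hlt
          push Not at hlt
          apply hj
          simp only [hA, Finset.mem_filter, Finset.mem_range]
          have : 2 * j < k + 1 := by exact_mod_cast hlt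
          omega
        have h8 : 1 ≤ 2 * (j : ℝ) / (k + 1) := by
          rw [le_div_iff₀ hkp]
          linarith
        have h9 : 0 ≤ 4 * (n : ℝ) / (k + 1) := by positivity
        have h10 := h.hh j
        nlinarith [mul_nonneg h10 (by linarith : 0 ≤ -(1 - 4 * (n : ℝ) / (k + 1) - 2 * j / (k + 1)))]
    have h11 : c' * (G q * (1 - (4 * n + 2) / (k + 1))) ≤ DR.step q k * 2 ^ k := by
      refine le_trans ?_ (h.step_lower k hk)
      refine le_trans (mul_le_mul_of_nonneg_left h6 hc'0) ?_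
      rw [Finset.mul_sum]
      exact Finset.sum_le_sum h2
    refine le_trans ?_ h11
    have h12 : 1 - 4 * ((n : ℝ) + 1) / k ≤ 1 - (4 * n + 2) / (k + 1) := by
      have : (4 * (n : ℝ) + 2) / (k + 1) ≤ 4 * ((n : ℝ) + 1) / k := by
        rw [div_le_div_iff₀ hkp hk0]
        nlinarith
      linarith
    calc c * G q / ((k : ℝ) + (n + 1)) ^ 3 * (1 - 4 * ((n : ℝ) + 1) / k)
        = c' * (G q * (1 - 4 * ((n : ℝ) + 1) / k)) := by rw [hc']; ring
      _ ≤ _ := mul_le_mul_of_nonneg_left (mul_le_mul_of_nonneg_left h12 (by linarith)) hc'0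

end Pool.Agent.Q217.DR
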