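import Pool.Agent.Q217.DR2

set_option autoImplicit false

open Filter Topology

namespace Pool.Agent.Q217.DR

/-- tail of the initial law: `t j = P(X_0 = j + 2)` -/
noncomputable def t (j : ℕ) : ℝ :=
  1 / (((j : ℝ) + 1) * ((j : ℝ) + 2) * ((j : ℝ) + 3)) * (1 / 2) ^ (j + 2)

theorem t_nonneg (j : ℕ) : 0 ≤ t j := by unfold t; positivity

theorem t_le (j : ℕ) : t j ≤ (1 / 6) * ((1 / 4) * (1 / 2) ^ j) := by
  unfold t
  have hj : (0 : ℝ) ≤ j := Nat.cast_nonneg j
  have h1 : 1 / (((j : ℝ) + 1) * ((j : ℝ) + 2) * ((j : ℝ) + 3)) ≤ 1 / 6 := by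
    refine one_div_le_one_div_of_le (by norm_num) ?_
    nlinarith [mul_nonneg hj hj, mul_nonneg (mul_nonneg hj hj) hj]
  have h2 : ((1 : ℝ) / 2) ^ (j + 2) = (1 / 4) * (1 / 2) ^ j := by
    rw [pow_add]; norm_num; ring
  rw [h2]
  exact mul_le_mul_of_nonneg_right h1 (by positivity)

theorem t_summable : Summable t := by
  refine Summable.of_nonneg_of_le t_nonneg t_le ?_
  exact ((summable_geometric_two).mul_left _).mul_left _

theorem t_tsum_le : ∑' j, t j ≤ 1 / 12 := by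
  have h1 : HasSum (fun j : ℕ => (1 / 6 : ℝ) * ((1 / 4) * (1 / 2) ^ j)) ((1 / 6) * ((1 / 4) * 2)) :=
    (hasSum_geometric_two.mul_left _).mul_left _
  have h2 := hasSum_le t_le t_summable.hasSum h1
  linarith

/-- the initial law -/
noncomputable def p0 : ℕ → ℝ
  | 0 => 1 / 2
  | 1 => 1 / 2 - ∑' j, t j
  | (j + 2) => t j

theorem p0_nonneg (k : ℕ) : 0 ≤ p0 k := by
  match k with
  | 0 => simp [p0]
  | 1 =>
    have := t_tsum_le
    simp only [p0]
    linarith
  | (j + 2) => exact t_nonneg j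

theorem p0_sum : HasSum p0 1 := by
  have h1 : HasSum (fun j => p0 (j + 2)) (∑' j, t j) := t_summable.hasSum
  have h2 := (hasSum_nat_add_iff 2).mp h1
  have e : ∑' j, t j + ∑ i ∈ Finset.range 2, p0 i = 1 := by
    simp [Finset.sum_range_succ, p0]
    ring
  rwa [e] at h2

theorem t_mul_pow (j : ℕ) : t j * 2 ^ (j + 2) = 1 / (((j : ℝ) + 1) * ((j : ℝ) + 2) * ((j : ℝ) + 3)) := by
  unfold t
  rw [mul_assoc, ← mul_pow]
  norm_num

/-- telescoping -/
theorem hasSum_tele : HasSum (fun j : ℕ => 1 / (((j : ℝ) + 2) * ((j : ℝ) + 3))) (1 / 2) := by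
  have h1 : ∀ n : ℕ, ∑ j ∈ Finset.range n, 1 / (((j : ℝ) + 2) * ((j : ℝ) + 3)) = 1 / 2 - 1 / ((n : ℝ) + 2) := by
    intro n
    induction n with
    | zero => norm_num
    | succ n ih =>
      rw [Finset.sum_range_succ, ih]
      push_cast
      have h2 : ((n : ℝ) + 2) ≠ 0 := by positivity
      have h3 : ((n : ℝ) + 3) ≠ 0 := by positivity
      have h4 : ((n : ℝ) + 1 + 2) ≠ 0 := by positivity
      field_simp
      ring
  rw [hasSum_iff_tendsto_nat_of_nonneg (fun j => by positivity)]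
  simp only [h1]
  have h2 : Tendsto (fun n : ℕ => 1 / ((n : ℝ) + 2)) atTop (𝓝 0) := by
    have h3 : Tendsto (fun n : ℕ => ((n : ℝ) + 2)) atTop atTop :=
      tendsto_atTop_add_const_right _ _ tendsto_natCast_atTop_atTop
    simp only [one_div]
    exact tendsto_inv_atTop_zero.comp h3
  have h5 := h2.const_sub (1 / 2 : ℝ)
  rw [sub_zero] at h5
  exact h5

theorem p0_km1 : HasSum (fun k : ℕ => ((k : ℝ) - 1) * (p0 k * 2 ^ k)) 0 := by
  have h1 : HasSum (fun j : ℕ => (((j + 2 : ℕ) : ℝ) - 1) * (p0 (j + 2) * 2 ^ (j + 2))) (1 / 2) := by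
    refine (hasSum_congr' fun j => ?_).mpr hasSum_tele
    have e : p0 (j + 2) = t j := rfl
    rw [e, t_mul_pow]
    push_cast
    have h1 : ((j : ℝ) + 1) ≠ 0 := by positivity
    have h2 : ((j : ℝ) + 2) ≠ 0 := by positivity
    have h3 : ((j : ℝ) + 3) ≠ 0 := by positivity
    field_simp
    ring
  have h2 := (hasSum_nat_add_iff (f := fun k : ℕ => ((k : ℝ) - 1) * (p0 k * 2 ^ k)) 2).mp h1
  have e : (1 / 2 : ℝ) + ∑ i ∈ Finset.range 2, (((i : ℕ) : ℝ) - 1) * (p0 i * 2 ^ i) = 0 := by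
    simp [Finset.sum_range_succ, p0]
  rwa [e] at h2

theorem p0_summ : Summable (fun k : ℕ => p0 k * 2 ^ k) := by
  rw [← summable_nat_add_iff 2]
  refine Summable.of_nonneg_of_le (fun j => ?_) (fun j => ?_) hasSum_tele.summable
  · exact mul_nonneg (p0_nonneg _) (by positivity)
  · have e : p0 (j + 2) = t j := rfl
    rw [e, t_mul_pow]
    refine one_div_le_one_div_of_le (by positivity) ?_
    have hj : (0 : ℝ) ≤ j := Nat.cast_nonneg j
    have : 0 ≤ ((j : ℝ) + 2) * ((j : ℝ) + 3) := by positivity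
    nlinarith [mul_nonneg hj this]

theorem crit_p0 : Crit p0 where
  nonneg := p0_nonneg
  sum1 := p0_sum
  summ := p0_summ
  summk := by
    have := p0_km1.summable.add p0_summ
    refine this.congr fun k => ?_
    ring
  crit := by
    have h1 := p0_km1.add p0_summ.hasSum
    rw [zero_add] at h1
    have h2 : HasSum (fun k : ℕ => (k : ℝ) * (p0 k * 2 ^ k)) (∑' k : ℕ, p0 k * 2 ^ k) := by
      refine (hasSum_congr' fun k => ?_).mpr h1
      ring
    exact h2.tsum_eq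

/-- the laws of `X_n` -/
noncomputable def P : ℕ → ℕ → ℝ
  | 0 => p0
  | (n + 1) => step (P n)

theorem crit_P (n : ℕ) : Crit (P n) := by
  induction n with
  | zero => exact crit_p0
  | succ n ih => exact ih.step

noncomputable def Pi (n : ℕ) : ℝ := ∏ i ∈ Finset.range n, G (P i)

theorem Pi_succ (n : ℕ) : Pi (n + 1) = Pi n * G (P n) := Finset.prod_range_succ _ _

theorem Pi_pos (n : ℕ) : 0 < Pi n :=
  Finset.prod_pos fun i _ => lt_of_lt_of_le one_pos (crit_P i).one_le_G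

theorem p0_lower (k : ℕ) (hk : 1 ≤ k) : (1 / 2) / ((k : ℝ) + (0 : ℕ)) ^ 3 * (1 - 4 * (0 : ℕ) / k) ≤ p0 k * 2 ^ k := by
  match k, hk with
  | 1, _ =>
    have := t_tsum_le
    simp only [p0]
    norm_num
    linarith
  | (j + 2), _ =>
    have e : p0 (j + 2) = t j := rfl
    rw [e, t_mul_pow]
    push_cast
    have hj : (0 : ℝ) ≤ j := Nat.cast_nonneg j
    have h1 : (1 / 2) / (((j : ℝ) + 2) + 0) ^ 3 * (1 - 4 * 0 / ((j : ℝ) + 2)) = (1/2) * (1 / ((j : ℝ) + 2) ^ 3) := by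
      simp
      ring
    rw [h1]
    have h2 : 1 / ((j : ℝ) + 2) ^ 3 ≤ 1 / (((j : ℝ) + 1) * ((j : ℝ) + 2) * ((j : ℝ) + 3)) := by
      refine one_div_le_one_div_of_le (by positivity) ?_
      nlinarith
    have h3 : 0 ≤ 1 / ((j : ℝ) + 2) ^ 3 := by positivity
    linarith

theorem P_lower (n : ℕ) : ∀ k : ℕ, 1 ≤ k →
    (1 / 2 * Pi n) / ((k : ℝ) + n) ^ 3 * (1 - 4 * n / k) ≤ P n k * 2 ^ k := by
  induction n with
  | zero =>
    intro k hk
    have e : Pi 0 = 1 := Finset.prod_range_zero _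
    rw [e, mul_one]
    exact p0_lower k hk
  | succ n ih =>
    intro k hk
    have h1 := (crit_P n).lower (1 / 2 * Pi n) (by have := Pi_pos n; positivity) n ih k hk
    have e : 1 / 2 * Pi (n + 1) = 1 / 2 * Pi n * G (P n) := by rw [Pi_succ]; ring
    rw [e]
    exact h1

theorem Pi_le (n : ℕ) (hn : 1 ≤ n) : Pi n ≤ 351 * n := by
  have hn1 : (1 : ℝ) ≤ n := by exact_mod_cast hn
  have h1 := (crit_P n).tail (Finset.Ico (8 * n) (16 * n)) (8 * n) (by omega)
    (fun k hk => (Finset.mem_Ico.mp hk).1)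
  have h2 : ∀ k ∈ Finset.Ico (8 * n) (16 * n), (1 / 2 * Pi n) / (16 * n + n : ℝ) ^ 3 * (1 / 2) ≤ P n k * 2 ^ k := by
    intro k hk
    rw [Finset.mem_Ico] at hk
    have hk1 : (8 : ℝ) * n ≤ k := by exact_mod_cast hk.1
    have hk2 : (k : ℝ) ≤ 16 * n := by exact_mod_cast hk.2.le
    have hk0 : (0 : ℝ) < k := by linarith
    refine le_trans ?_ (P_lower n k (by omega))
    have h3 : (1 / 2 : ℝ) ≤ 1 - 4 * n / k := by
      have : 4 * (n : ℝ) / k ≤ 1 / 2 := by
        rw [div_le_div_iff₀ hk0 (by norm_num)]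
        linarith
      linarith
    have hP := Pi_pos n
    have h4 : (1 / 2 * Pi n) / (16 * n + n : ℝ) ^ 3 ≤ (1 / 2 * Pi n) / ((k : ℝ) + n) ^ 3 := by
      refine div_le_div_of_nonneg_left (by positivity) (by positivity) ?_
      exact pow_le_pow_left₀ (by positivity) (by linarith) 3
    exact mul_le_mul h4 h3 (by norm_num) (by positivity)
  have h3 := Finset.sum_le_sum h2
  rw [Finset.sum_const, Nat.card_Ico, nsmul_eq_mul] at h3
  have e : 16 * n - 8 * n = 8 * n := by omega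
  rw [e] at h3
  push_cast at h3 h1
  have h4 : (8 * (n : ℝ) - 1) * (8 * n * ((1 / 2 * Pi n) / (16 * n + n : ℝ) ^ 3 * (1 / 2))) ≤ 1 :=
    le_trans (mul_le_mul_of_nonneg_left h3 (by linarith)) h1
  have h5 : (8 * (n : ℝ) - 1) * (8 * n * ((1 / 2 * Pi n) / (16 * n + n : ℝ) ^ 3 * (1 / 2)))
      = (8 * n - 1) * (2 * Pi n) / (4913 * (n : ℝ) ^ 2) := by
    have : (n : ℝ) ≠ 0 := by positivity
    field_simp
    ring
  rw [h5, div_le_one (by positivity)] at h4
  have hP := Pi_pos n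
  have h6 : 7 * (n : ℝ) * (2 * Pi n) ≤ 4913 * (n : ℝ) ^ 2 := by
    refine le_trans ?_ h4
    exact mul_le_mul_of_nonneg_right (by linarith) (by positivity)
  nlinarith

theorem no_seq (u : ℕ → ℝ) (N : ℕ) (B δ : ℝ) (hδ : 0 < δ)
    (h : ∀ n, N ≤ n → u n + δ / ((n : ℝ) + 1) ≤ u (n + 1)) (hB : ∀ n, N ≤ n → u n ≤ B) : False := by
  set H : ℕ → ℝ := fun n => ∑ i ∈ Finset.range n, (1 / ((i : ℝ) + 1)) with hH
  have hT : Tendsto H atTop atTop := Real.tendsto_sum_range_one_div_nat_succ_atTop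
  have h1 : ∀ n, N ≤ n → u N + δ * (H n - H N) ≤ u n := by
    intro n hn
    induction n, hn using Nat.le_induction with
    | base => simp
    | succ n hn ih =>
      have e : H (n + 1) = H n + 1 / ((n : ℝ) + 1) := Finset.sum_range_succ _ _
      have h2 := h n hn
      rw [e]
      have e2 : δ / ((n : ℝ) + 1) = δ * (1 / ((n : ℝ) + 1)) := by ring
      rw [e2] at h2
      linarith
  obtain ⟨M, hM⟩ := (tendsto_atTop.mp hT ((B - u N) / δ + H N + 1)).exists_forall_of_atTop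
  have h2 := hM (max M N) (le_max_left _ _)
  have h3 := h1 (max M N) (le_max_right _ _)
  have h4 := hB (max M N) (le_max_right _ _)
  have h5 : (B - u N) / δ + 1 ≤ H (max M N) - H N := by linarith
  have h6 : δ * ((B - u N) / δ + 1) ≤ δ * (H (max M N) - H N) := mul_le_mul_of_nonneg_left h5 hδ.le
  have h7 : δ * ((B - u N) / δ + 1) = B - u N + δ := by
    field_simp
  linarith

end Pool.Agent.Q217.DR
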