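import Pool.Agent.Q217.DR3

set_option autoImplicit false

open Filter Topology

namespace Pool.Agent.Q217.DR

/-- the crucial contradiction from `b_n ≥ 3.95 / n²` and `b_n ≤ 4.2 / n²` -/
theorem contra (N0 : ℕ) (hlow : ∀ n : ℕ, N0 ≤ n → 3.95 / (n : ℝ) ^ 2 ≤ 1 - P n 0)
    (hup : ∀ n : ℕ, N0 ≤ n → 1 - P n 0 ≤ 4.2 / (n : ℝ) ^ 2) : False := by
  set N := max N0 20 with hN
  have hN0 : N0 ≤ N := le_max_left _ _
  have hN20 : 20 ≤ N := le_max_right _ _
  set a : ℕ → ℝ := fun n => G (P n) - 1 with ha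
  have ha0 : ∀ n, 0 ≤ a n := fun n => by
    have := (crit_P n).one_le_G
    simp only [ha]
    linarith
  have hrec : ∀ n, N ≤ n → a (n + 1) ≤ a n + a n ^ 2 / 2 - 3.9 / (n : ℝ) ^ 2 := by
    intro n hn
    have h1 : G (P (n + 1)) = (1 / 2) * (G (P n) ^ 2 + P n 0 ^ 2) := (crit_P n).G_step
    have h2 := hlow n (hN0.trans hn)
    have h3 := hup n (hN0.trans hn)
    have hn20 : (20 : ℝ) ≤ n := by exact_mod_cast hN20.trans hn
    have hn2 : (400 : ℝ) ≤ (n : ℝ) ^ 2 := by nlinarith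
    have h4 : 4.2 / (n : ℝ) ^ 2 ≤ 0.0105 := by
      rw [div_le_iff₀ (by positivity)]
      nlinarith
    have h5 : 0 < 1 / (n : ℝ) ^ 2 := by positivity
    have e1 : 3.95 / (n : ℝ) ^ 2 = 3.95 * (1 / (n : ℝ) ^ 2) := by ring
    have e2 : 3.9 / (n : ℝ) ^ 2 = 3.9 * (1 / (n : ℝ) ^ 2) := by ring
    rw [e1] at h2
    rw [e2]
    set b := 1 - P n 0 with hb
    have hP : P n 0 = 1 - b := by rw [hb]; ring
    rw [hP] at h1
    simp only [ha]
    rw [h1]
    set w := 1 / (n : ℝ) ^ 2 with hw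
    have hb1 : b ≤ 0.0105 := h3.trans h4
    have hb0 : 0 ≤ b := by linarith
    nlinarith [mul_nonneg hb0 (by linarith : (0:ℝ) ≤ 0.0105 - b)]
  have key : ∀ n, N ≤ n → 1.5 / (n : ℝ) ≤ a n := by
    intro n0 hn0
    by_contra hlt
    push Not at hlt
    have hn0p : (0 : ℝ) < n0 := by
      have : 0 < n0 := by omega
      exact_mod_cast this
    -- y n = n * a n
    have hy : ∀ n, n0 ≤ n → (n : ℝ) * a n < 1.5 ∧
        ((n + 1 : ℕ) : ℝ) * a (n + 1) + 1 / ((n : ℝ) + 1) ≤ (n : ℝ) * a n := by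
      have hstep : ∀ n, n0 ≤ n → (n : ℝ) * a n < 1.5 →
          ((n + 1 : ℕ) : ℝ) * a (n + 1) + 1 / ((n : ℝ) + 1) ≤ (n : ℝ) * a n := by
        intro n hn hlt1
        have hnN : N ≤ n := hn0.trans hn
        have hn20 : (20 : ℝ) ≤ n := by exact_mod_cast hN20.trans hnN
        have hnp : (0 : ℝ) < n := by linarith
        have h1 := hrec n hnN
        have ha0n := ha0 n
        set y := (n : ℝ) * a n with hy
        have hy0 : 0 ≤ y := by positivity
        have ea : a n = y / n := by rw [hy]; field_simp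
        rw [ea] at h1
        have h2 : ((n + 1 : ℕ) : ℝ) * a (n + 1) ≤ (n + 1) * (y / n + (y / n) ^ 2 / 2 - 3.9 / (n : ℝ) ^ 2) := by
          push_cast
          exact mul_le_mul_of_nonneg_left h1 (by positivity)
        have h3 : 1 / ((n : ℝ) + 1) ≤ 1 / n := one_div_le_one_div_of_le hnp (by linarith)
        have h4 : ((n : ℝ) + 1) * (y / n + (y / n) ^ 2 / 2 - 3.9 / (n : ℝ) ^ 2) ≤ y - 1 / n := by
          have e : y - 1 / n - ((n : ℝ) + 1) * (y / n + (y / n) ^ 2 / 2 - 3.9 / (n : ℝ) ^ 2)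
              = (3.9 * (n + 1) - n - n * y - (n + 1) * y ^ 2 / 2) / (n : ℝ) ^ 2 := by
            field_simp
            ring
          have h5 : 0 ≤ 3.9 * ((n : ℝ) + 1) - n - n * y - (n + 1) * y ^ 2 / 2 := by
            have hy2 : y ^ 2 ≤ 2.25 := by nlinarith
            nlinarith [mul_nonneg hnp.le (by linarith : (0:ℝ) ≤ 1.5 - y), mul_nonneg hnp.le (by linarith : (0:ℝ) ≤ 2.25 - y ^ 2)]
          have h6 : 0 ≤ y - 1 / n - ((n : ℝ) + 1) * (y / n + (y / n) ^ 2 / 2 - 3.9 / (n : ℝ) ^ 2) := by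
            rw [e]
            positivity
          linarith
        linarith
      intro n hn
      induction n, hn using Nat.le_induction with
      | base =>
        have h1 : (n0 : ℝ) * a n0 < 1.5 := by
          rw [lt_div_iff₀ hn0p] at hlt
          linarith
        exact ⟨h1, hstep n0 le_rfl h1⟩
      | succ n hn ih =>
        have h1 : ((n + 1 : ℕ) : ℝ) * a (n + 1) < 1.5 := by
          have : 0 ≤ 1 / ((n : ℝ) + 1) := by positivity
          linarith [ih.1, ih.2]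
        exact ⟨h1, hstep (n + 1) (by omega) h1⟩
    refine no_seq (fun n => -((n : ℝ) * a n)) n0 0 1 one_pos (fun n hn => ?_) (fun n _ => ?_)
    · have := (hy n hn).2
      linarith
    · have := mul_nonneg (Nat.cast_nonneg n : (0 : ℝ) ≤ n) (ha0 n)
      linarith
  -- R n = Pi n / n
  have hR : ∀ n, N ≤ n → Pi n / n + (0.5 * (Pi n / n)) / ((n : ℝ) + 1) ≤ Pi (n + 1) / ((n + 1 : ℕ) : ℝ) := by
    intro n hn
    have hn20 : (20 : ℝ) ≤ n := by exact_mod_cast hN20.trans hn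
    have hnp : (0 : ℝ) < n := by linarith
    have h1 := key n hn
    have hP := Pi_pos n
    have h2 : G (P n) = 1 + a n := by simp only [ha]; ring
    rw [Pi_succ, h2]
    push_cast
    have h3 : Pi n / n + (0.5 * (Pi n / n)) / ((n : ℝ) + 1) = Pi n * (1 + 1.5 / n) / (n + 1) := by
      field_simp
      ring
    rw [h3]
    refine div_le_div_of_nonneg_right ?_ (by positivity)
    exact mul_le_mul_of_nonneg_left (by linarith) hP.le
  have hRN : ∀ n, N ≤ n → Pi N / N ≤ Pi n / n := by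
    intro n hn
    induction n, hn using Nat.le_induction with
    | base => exact le_rfl
    | succ n hn ih =>
      have h1 := hR n hn
      have h2 : 0 ≤ (0.5 * (Pi n / n)) / ((n : ℝ) + 1) := by
        have := Pi_pos n
        positivity
      linarith
  have hNp : (0 : ℝ) < N := by
    have : 0 < N := by omega
    exact_mod_cast this
  have hRNp : 0 < Pi N / N := div_pos (Pi_pos N) hNp
  refine no_seq (fun n => Pi n / n) N 351 (0.5 * (Pi N / N)) (by positivity) (fun n hn => ?_) (fun n hn => ?_)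
  · refine le_trans ?_ (hR n hn)
    have h1 := hRN n hn
    have h2 : (0.5 * (Pi N / N)) / ((n : ℝ) + 1) ≤ (0.5 * (Pi n / n)) / ((n : ℝ) + 1) :=
      div_le_div_of_nonneg_right (by linarith) (by positivity)
    linarith
  · have hnp : 1 ≤ n := by omega
    have hnp' : (0 : ℝ) < n := by exact_mod_cast hnp
    rw [div_le_iff₀ hnp']
    exact Pi_le n hnp

theorem summable_s (n : ℕ) : Summable (fun k : ℕ => P n k * (1 / 100 : ℝ) ^ k) := by
  refine Summable.of_nonneg_of_le (fun k => mul_nonneg ((crit_P n).nonneg k) (by positivity)) (fun k => ?_)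
    (crit_P n).sum1.summable
  have h1 : (1 / 100 : ℝ) ^ k ≤ 1 := pow_le_one₀ (by norm_num) (by norm_num)
  have := (crit_P n).nonneg k
  nlinarith

theorem s_lower (n : ℕ) : P n 0 ≤ ∑' k : ℕ, P n k * (1 / 100 : ℝ) ^ k := by
  have h1 := le_hasSum (summable_s n).hasSum 0
    (fun k _ => mul_nonneg ((crit_P n).nonneg k) (by positivity))
  simpa using h1

theorem s_upper (n : ℕ) : ∑' k : ℕ, P n k * (1 / 100 : ℝ) ^ k ≤ 1 / 100 + (99 / 100) * P n 0 := by
  have h1 : HasSum (fun k : ℕ => (1 / 100 : ℝ) * P n k + (if k = 0 then (99 / 100) * P n 0 else 0))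
      ((1 / 100) * 1 + (99 / 100) * P n 0) :=
    ((crit_P n).sum1.mul_left _).add (hasSum_ite_eq _ _)
  have h2 := hasSum_le (fun k => ?_) (summable_s n).hasSum h1
  · linarith
  · have h0 := (crit_P n).nonneg k
    rcases Nat.eq_zero_or_pos k with rfl | hk
    · simp
      linarith
    · rw [if_neg hk.ne', add_zero]
      have h3 : (1 / 100 : ℝ) ^ k ≤ 1 / 100 := by
        calc (1 / 100 : ℝ) ^ k ≤ (1 / 100) ^ 1 :=
              pow_le_pow_of_le_one (by norm_num) (by norm_num) hk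
          _ = 1 / 100 := pow_one _
      nlinarith

theorem main
    (hT : Tendsto
          (fun n : ℕ =>
            ((∑' k : ℕ, P n k * (1 / 100 : ℝ) ^ k) - 1) /
              (4 * ((2 : ℕ) : ℝ) / ((((2 : ℕ) : ℝ) - 1) ^ 2) * (((1 / 100 : ℝ) - 1) / (((2 : ℕ) : ℝ) - 1 / 100)) / ((n : ℝ) ^ 2)))
          atTop (𝓝 1)) : False := by
  have h1 := hT.eventually (Ioo_mem_nhds (show (0.995 : ℝ) < 1 by norm_num) (show (1 : ℝ) < 1.02 by norm_num))
  obtain ⟨N1, hN1⟩ := eventually_atTop.mp h1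
  refine contra (max N1 1) (fun n hn => ?_) (fun n hn => ?_)
  all_goals
    have hn1 : N1 ≤ n := (le_max_left _ _).trans hn
    have hn2 : 1 ≤ n := (le_max_right _ _).trans hn
    have hnp : (0 : ℝ) < n := by exact_mod_cast hn2
    have h2 := hN1 n hn1
    have e : ((∑' k : ℕ, P n k * (1 / 100 : ℝ) ^ k) - 1) /
              (4 * ((2 : ℕ) : ℝ) / ((((2 : ℕ) : ℝ) - 1) ^ 2) * (((1 / 100 : ℝ) - 1) / (((2 : ℕ) : ℝ) - 1 / 100)) / ((n : ℝ) ^ 2))
        = (1 - ∑' k : ℕ, P n k * (1 / 100 : ℝ) ^ k) * (n : ℝ) ^ 2 * (199 / 792) := by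
      push_cast
      have h99 : ((1 : ℝ) / 100 - 1) / (2 - 1 / 100) = -(99 / 199) := by norm_num
      rw [h99]
      field_simp
      ring
    rw [e] at h2
    have h3 := h2.1
    have h4 := h2.2
    have h5 := s_lower n
    have h6 := s_upper n
    have hn2p : (0 : ℝ) < (n : ℝ) ^ 2 := by positivity
  · rw [div_le_iff₀ hn2p]
    have h7 : (1 - ∑' k : ℕ, P n k * (1 / 100 : ℝ) ^ k) * (n : ℝ) ^ 2 ≤ (1 - P n 0) * (n : ℝ) ^ 2 :=
      mul_le_mul_of_nonneg_right (by linarith) hn2p.le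
    linarith
  · rw [le_div_iff₀ hn2p]
    have h7 : (1 - P n 0) * (n : ℝ) ^ 2 * (99 / 100) ≤ (1 - ∑' k : ℕ, P n k * (1 / 100 : ℝ) ^ k) * (n : ℝ) ^ 2 := by
      have : (1 - P n 0) * (99 / 100) ≤ (1 - ∑' k : ℕ, P n k * (1 / 100 : ℝ) ^ k) := by linarith
      nlinarith
    linarith

end Pool.Agent.Q217.DR
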